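import Pool.Agent.KS6_29.HP.Seq

/-!
# Many possible edges whose addition gives a path of a given length

`H ≤ G`, all degrees of `H` are at least `d`.
-/

set_option autoImplicit false

namespace Pool.Agent.KS6_29.HP

open Finset

section basic

variable {V : Type}

/-- The graph of the candidates. -/
def cand {ι : Type} (T : Finset ι) (f g : ι → V) : SimpleGraph V :=
  SimpleGraph.fromRel (fun a b => ∃ t ∈ T, f t = a ∧ g t = b)

theorem cand_adj {ι : Type} {T : Finset ι} {f g : ι → V} {t : ι} (ht : t ∈ T)
    (hne : f t ≠ g t) : (cand T f g).Adj (f t) (g t) := by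
  unfold cand
  rw [SimpleGraph.fromRel_adj]
  exact ⟨hne, Or.inl ⟨t, ht, rfl, rfl⟩⟩

theorem cand_elim {ι : Type} {T : Finset ι} {f g : ι → V} {Q : SimpleGraph V}
    (h : ∃ a b, (cand T f g).Adj a b ∧ Q.Adj a b) : ∃ t ∈ T, Q.Adj (f t) (g t) := by
  obtain ⟨a, b, h1, h2⟩ := h
  unfold cand at h1
  rw [SimpleGraph.fromRel_adj] at h1
  rcases h1.2 with ⟨t, ht, ha, hb⟩ | ⟨t, ht, ha, hb⟩
  · exact ⟨t, ht, by rw [ha, hb]; exact h2⟩
  · exact ⟨t, ht, by rw [ha, hb]; exact h2.symm⟩

theorem count_edges [Fintype V] {ι : Type} (K : SimpleGraph V) (T : Finset ι) (f g : ι → V)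
    (hK : ∀ t ∈ T, K.Adj (f t) (g t)) (m : ℕ)
    (hfib : ∀ a b : V, {t | t ∈ T ∧ f t = a ∧ g t = b}.ncard ≤ m) :
    T.card ≤ 2 * m * K.edgeSet.ncard := by
  classical
  have hfin : K.edgeSet.Finite := Set.toFinite _
  rw [Set.ncard_eq_toFinset_card _ hfin]
  refine Finset.card_le_mul_card_image_of_maps_to (f := fun t => s(f t, g t)) ?_ (2 * m) ?_
  · intro t ht
    rw [Set.Finite.mem_toFinset, SimpleGraph.mem_edgeSet]
    exact hK t ht
  · intro e _
    have hc : ∀ a b, (T.filter (fun t => f t = a ∧ g t = b)).card ≤ m := by
      intro a b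
      rw [← Set.ncard_coe_finset]
      simpa using hfib a b
    induction e using Sym2.ind with
    | _ a b =>
      calc (T.filter (fun t => s(f t, g t) = s(a, b))).card
          ≤ (T.filter (fun t => f t = a ∧ g t = b) ∪
              T.filter (fun t => f t = b ∧ g t = a)).card := by
            apply Finset.card_le_card
            intro t ht
            rw [Finset.mem_filter, Sym2.eq_iff] at ht
            rw [Finset.mem_union, Finset.mem_filter, Finset.mem_filter]
            rcases ht.2 with h | h
            · exact Or.inl ⟨ht.1, h⟩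
            · exact Or.inr ⟨ht.1, h⟩
        _ ≤ _ := by
            refine (Finset.card_union_le _ _).trans ?_
            have h1 := hc a b
            have h2 := hc b a
            omega

open Classical in
/-- The indices of the `H`-neighbours of `a`. -/
noncomputable def nb (H : SimpleGraph V) (n : ℕ) (v : ℕ → V) (a : V) : Finset ℕ :=
  (range n).filter (fun i => H.Adj a (v i))

theorem mem_nb {H : SimpleGraph V} {n : ℕ} {v : ℕ → V} {a : V} {i : ℕ} :
    i ∈ nb H n v a ↔ i < n ∧ H.Adj a (v i) := by
  simp only [nb, mem_filter, mem_range]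

/-- All degrees are at least `d`. -/
def MinDeg (H : SimpleGraph V) (d : ℕ) : Prop := ∀ a : V, d ≤ {b | H.Adj a b}.ncard

theorem card_nb {H G : SimpleGraph V} {n : ℕ} {v : ℕ → V} (hv : En G n v) {d : ℕ}
    (hd : MinDeg H d) (a : V) : d ≤ (nb H n v a).card := by
  classical
  refine (hd a).trans ?_
  have h1 : {b | H.Adj a b} ⊆ v '' (nb H n v a : Set ℕ) := by
    intro b hb
    obtain ⟨i, hi, hib⟩ := hv.surj b
    exact ⟨i, by rw [mem_coe, mem_nb, hib]; exact ⟨hi, hb⟩, hib⟩
  refine (Set.ncard_le_ncard h1 ((Finset.finite_toSet _).image _)).trans ?_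
  refine (Set.ncard_image_le (Finset.finite_toSet _)).trans ?_
  rw [Set.ncard_coe_finset]

theorem fib_le {T : Finset (ℕ × ℕ)} {P : ℕ × ℕ → Prop} {A B : Finset ℕ}
    (h : ∀ t ∈ T, P t → t.1 ∈ A ∧ t.2 ∈ B) : {t | t ∈ T ∧ P t}.ncard ≤ A.card * B.card := by
  have h1 : {t | t ∈ T ∧ P t} ⊆ ((A ×ˢ B : Finset (ℕ × ℕ)) : Set (ℕ × ℕ)) := by
    intro t ht
    rw [mem_coe, mem_product]
    exact h t ht.1 ht.2
  refine (Set.ncard_le_ncard h1 (Finset.finite_toSet _)).trans ?_
  rw [Set.ncard_coe_finset, card_product]

theorem two_pair (a b : ℕ) : ({a, b} : Finset ℕ).card ≤ 2 := Finset.card_le_two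

end basic

variable {V : Type} [Fintype V]

/-- From a Hamilton path to a Hamilton path with other ends. -/
theorem stepI {H G : SimpleGraph V} (hHG : H ≤ G) {n d : ℕ} {v : ℕ → V} (hv : En G n v)
    (hd : MinDeg H d) {t : ℕ} (ht : t + 1 < n) :
    ∃ K : SimpleGraph V, (d - 5) ^ 2 ≤ 8 * K.edgeSet.ncard ∧
      ∀ Q : SimpleGraph V, (∃ a b, K.Adj a b ∧ Q.Adj a b) →
        PL (G ⊔ Q) (v t) (v (n - 1)) (n - 1) := by
  classical
  set E : Finset ℕ := {0, t, t + 1, n - 1} with hE
  have hEc : E.card ≤ 4 := Finset.card_le_four
  set A := nb H n v (v 0) \ E with hA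
  set B := nb H n v (v (t + 1)) \ E with hB
  have hAc : d - 4 ≤ A.card := by
    have h1 := card_nb hv hd (v 0)
    have h2 : (nb H n v (v 0)).card - E.card ≤ A.card := Finset.le_card_sdiff E (nb H n v (v 0))
    omega
  have hBc : d - 4 ≤ B.card := by
    have h1 := card_nb hv hd (v (t + 1))
    have h2 : (nb H n v (v (t + 1))).card - E.card ≤ B.card :=
      Finset.le_card_sdiff E (nb H n v (v (t + 1)))
    omega
  set T : Finset (ℕ × ℕ) := (A ×ˢ B).filter (fun p => p.1 ≠ p.2) with hT
  have hTc : (d - 5) ^ 2 ≤ T.card := by
    have h1 : (A ×ˢ B).card ≤ T.card + A.card := by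
      rw [← Finset.card_filter_add_card_filter_not (s := A ×ˢ B) (fun p => p.1 ≠ p.2)]
      apply Nat.add_le_add_left
      refine Finset.card_le_card_of_injOn Prod.fst ?_ ?_
      · intro p hp
        simp only [coe_filter, mem_product, Set.mem_ofPred_eq] at hp
        exact hp.1.1
      · intro p hp q hq hpq
        simp only [coe_filter, mem_product, Set.mem_ofPred_eq, not_not] at hp hq
        exact Prod.ext hpq (by rw [← hp.2, ← hq.2]; exact hpq)
    rw [card_product] at h1
    rcases Nat.lt_or_ge d 5 with h5 | h5
    · have : d - 5 = 0 := by omega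
      rw [this]; simp
    · obtain ⟨e, rfl⟩ := Nat.exists_eq_add_of_le h5
      have h6 : 5 + e - 5 = e := by omega
      rw [h6]
      have h7 : e + 1 ≤ A.card := by omega
      have h8 : e + 1 ≤ B.card := by omega
      nlinarith
  set fi : ℕ × ℕ → ℕ := fun p => if t < p.2 ∧ p.2 < p.1 then p.1 + 1 else p.1 - 1 with hfi
  set gj : ℕ × ℕ → ℕ := fun p => if p.1 < p.2 ∧ p.2 < t then p.2 + 1 else p.2 - 1 with hgj
  have hmem : ∀ p ∈ T, p.1 < n ∧ H.Adj (v 0) (v p.1) ∧ p.2 < n ∧ H.Adj (v (t + 1)) (v p.2) ∧
      p.1 ≠ 0 ∧ p.1 ≠ t ∧ p.1 ≠ t + 1 ∧ p.1 ≠ n - 1 ∧ p.2 ≠ 0 ∧ p.2 ≠ t ∧ p.2 ≠ t + 1 ∧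
      p.2 ≠ n - 1 ∧ p.1 ≠ p.2 := by
    intro p hp
    rw [hT, mem_filter, mem_product, hA, hB, mem_sdiff, mem_sdiff, mem_nb, mem_nb, hE] at hp
    simp only [mem_insert, mem_singleton, not_or] at hp
    tauto
  have hfn : ∀ p ∈ T, fi p < n := by
    intro p hp
    obtain ⟨h1, h2, h3, h4, h5, h6, h7, h8, h9, h10, h11, h12, h13⟩ := hmem p hp
    simp only [hfi]; split_ifs <;> omega
  have hgn : ∀ p ∈ T, gj p < n := by
    intro p hp
    obtain ⟨h1, h2, h3, h4, h5, h6, h7, h8, h9, h10, h11, h12, h13⟩ := hmem p hp
    simp only [hgj]; split_ifs <;> omega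
  have hne : ∀ p ∈ T, fi p ≠ gj p := by
    intro p hp
    obtain ⟨h1, h2, h3, h4, h5, h6, h7, h8, h9, h10, h11, h12, h13⟩ := hmem p hp
    simp only [hfi, hgj]; split_ifs <;> omega
  refine ⟨cand T (fun p => v (fi p)) (fun p => v (gj p)), ?_, ?_⟩
  · refine hTc.trans ?_
    have h := count_edges (cand T (fun p => v (fi p)) (fun p => v (gj p))) T
      (fun p => v (fi p)) (fun p => v (gj p))
      (fun p hp => cand_adj hp fun h => hne p hp (hv.inj _ _ (hfn p hp) (hgn p hp) h)) 4 ?_
    · omega
    · intro a b
      obtain ⟨α, hα, rfl⟩ := hv.surj a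
      obtain ⟨β, hβ, rfl⟩ := hv.surj b
      have h4 : ({α - 1, α + 1} : Finset ℕ).card * ({β - 1, β + 1} : Finset ℕ).card ≤ 4 :=
        Nat.mul_le_mul (two_pair _ _) (two_pair _ _)
      refine le_trans (fib_le (P := fun p => v (fi p) = v α ∧ v (gj p) = v β) ?_) h4
      intro p hp hh
      have e1 := hv.inj _ _ (hfn p hp) hα hh.1
      have e2 := hv.inj _ _ (hgn p hp) hβ hh.2
      obtain ⟨h1, h2, h3, h4, h5, h6, h7, h8, h9, h10, h11, h12, h13⟩ := hmem p hp
      simp only [hfi] at e1
      simp only [hgj] at e2
      simp only [mem_insert, mem_singleton]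
      constructor
      · split_ifs at e1 <;> omega
      · split_ifs at e2 <;> omega
  · intro Q hQ
    obtain ⟨⟨i, j⟩, hp, hadj⟩ := cand_elim hQ
    obtain ⟨h1, h2, h3, h4, h5, h6, h7, h8, h9, h10, h11, h12, h13⟩ := hmem _ hp
    simp only [hfi, hgj] at hadj
    simp only at h1 h2 h3 h4 h5 h6 h7 h8 h9 h10 h11 h12 h13
    set R : ℕ → ℕ → Prop := fun i j => (G ⊔ Q).Adj (v i) (v j) with hR
    have hs : ∀ a b, R a b → R b a := fun a b h => SimpleGraph.Adj.symm h
    have hst : ∀ m, m + 1 < n → R m (m + 1) := fun m hm => Or.inl (hv.adj m hm)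
    have r0 : R 0 i := Or.inl (hHG h2)
    have rt : R (t + 1) j := Or.inl (hHG h4)
    have seg : ∀ a b, a ≤ b → b < n → Pth R (sg a b) a b := fun a b hab hb =>
      pth_sg hab fun m h1 h2 => hst m (by omega)
    have rseg : ∀ a b, a ≤ b → b < n → Pth R (sg a b).reverse b a := fun a b hab hb =>
      pth_rsg hs hab fun m h1 h2 => hst m (by omega)
    rcases Nat.lt_or_ge i t with hit | hit
    · rcases Nat.lt_or_ge j t with hjt | hjt
      · rcases Nat.lt_or_ge j i with hji | hji
        · -- D1
          rw [if_neg (by omega), if_neg (by omega)] at hadj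
          have rq : R (i - 1) (j - 1) := Or.inr hadj
          have hP := (((rseg (t + 1) (n - 1) (by omega) (by omega)).append
            (seg j (i - 1) (by omega) (by omega)) rt).append
            (rseg 0 (j - 1) (by omega) (by omega)) rq).append
            (seg i t (by omega) (by omega)) r0
          refine PL.symm (PL.of_idx hv.inj ?_ ?_ hP ?_)
          · intro m hm
            simp only [List.mem_append, List.mem_reverse, mem_sg] at hm
            omega
          · simp only [List.nodup_append, List.nodup_reverse, sg_nodup, true_and,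
              List.mem_append, List.mem_reverse, mem_sg]
            repeat' apply And.intro
            all_goals (intros; omega)
          · simp only [List.length_append, List.length_reverse, length_sg]
            omega
        · -- D2
          rw [if_neg (by omega), if_pos (by omega)] at hadj
          have rq : R (i - 1) (j + 1) := Or.inr hadj
          have hP := (((rseg (t + 1) (n - 1) (by omega) (by omega)).append
            (rseg i j (by omega) (by omega)) rt).append
            (seg 0 (i - 1) (by omega) (by omega)) (hs _ _ r0)).append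
            (seg (j + 1) t (by omega) (by omega)) rq
          refine PL.symm (PL.of_idx hv.inj ?_ ?_ hP ?_)
          · intro m hm
            simp only [List.mem_append, List.mem_reverse, mem_sg] at hm
            omega
          · simp only [List.nodup_append, List.nodup_reverse, sg_nodup, true_and,
              List.mem_append, List.mem_reverse, mem_sg]
            repeat' apply And.intro
            all_goals (intros; omega)
          · simp only [List.length_append, List.length_reverse, length_sg]
            omega
      · -- A
        rw [if_neg (by omega), if_neg (by omega)] at hadj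
        have rq : R (i - 1) (j - 1) := Or.inr hadj
        have hP := (((rseg j (n - 1) (by omega) (by omega)).append
          (seg (t + 1) (j - 1) (by omega) (by omega)) (hs _ _ rt)).append
          (rseg 0 (i - 1) (by omega) (by omega)) (hs _ _ rq)).append
          (seg i t (by omega) (by omega)) r0
        refine PL.symm (PL.of_idx hv.inj ?_ ?_ hP ?_)
        · intro m hm
          simp only [List.mem_append, List.mem_reverse, mem_sg] at hm
          omega
        · simp only [List.nodup_append, List.nodup_reverse, sg_nodup, true_and,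
            List.mem_append, List.mem_reverse, mem_sg]
          repeat' apply And.intro
          all_goals (intros; omega)
        · simp only [List.length_append, List.length_reverse, length_sg]
          omega
    · rcases Nat.lt_or_ge j t with hjt | hjt
      · -- B
        rw [if_neg (by omega), if_neg (by omega)] at hadj
        have rq : R (i - 1) (j - 1) := Or.inr hadj
        have hP := (((rseg j t (by omega) (by omega)).append
          (seg (t + 1) (i - 1) (by omega) (by omega)) (hs _ _ rt)).append
          (rseg 0 (j - 1) (by omega) (by omega)) rq).append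
          (seg i (n - 1) (by omega) (by omega)) r0
        refine PL.of_idx hv.inj ?_ ?_ hP ?_
        · intro m hm
          simp only [List.mem_append, List.mem_reverse, mem_sg] at hm
          omega
        · simp only [List.nodup_append, List.nodup_reverse, sg_nodup, true_and,
            List.mem_append, List.mem_reverse, mem_sg]
          repeat' apply And.intro
          all_goals (intros; omega)
        · simp only [List.length_append, List.length_reverse, length_sg]
          omega
      · rcases Nat.lt_or_ge j i with hji | hji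
        · -- C2
          rw [if_pos (by omega), if_neg (by omega)] at hadj
          have rq : R (i + 1) (j - 1) := Or.inr hadj
          have hP := (((rseg 0 t (by omega) (by omega)).append
            (rseg j i (by omega) (by omega)) r0).append
            (seg (t + 1) (j - 1) (by omega) (by omega)) (hs _ _ rt)).append
            (seg (i + 1) (n - 1) (by omega) (by omega)) (hs _ _ rq)
          refine PL.of_idx hv.inj ?_ ?_ hP ?_
          · intro m hm
            simp only [List.mem_append, List.mem_reverse, mem_sg] at hm
            omega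
          · simp only [List.nodup_append, List.nodup_reverse, sg_nodup, true_and,
              List.mem_append, List.mem_reverse, mem_sg]
            repeat' apply And.intro
            all_goals (intros; omega)
          · simp only [List.length_append, List.length_reverse, length_sg]
            omega
        · -- C1
          rw [if_neg (by omega), if_neg (by omega)] at hadj
          have rq : R (i - 1) (j - 1) := Or.inr hadj
          have hP := (((rseg 0 t (by omega) (by omega)).append
            (seg i (j - 1) (by omega) (by omega)) r0).append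
            (rseg (t + 1) (i - 1) (by omega) (by omega)) (hs _ _ rq)).append
            (seg j (n - 1) (by omega) (by omega)) rt
          refine PL.of_idx hv.inj ?_ ?_ hP ?_
          · intro m hm
            simp only [List.mem_append, List.mem_reverse, mem_sg] at hm
            omega
          · simp only [List.nodup_append, List.nodup_reverse, sg_nodup, true_and,
              List.mem_append, List.mem_reverse, mem_sg]
            repeat' apply And.intro
            all_goals (intros; omega)
          · simp only [List.length_append, List.length_reverse, length_sg]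
            omega

end Pool.Agent.KS6_29.HP
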