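import Pool.Agent.KS6_29.HP.Prob

/-!
# The same sharp threshold for all properties between Hamiltonicity and paths of all lengths
-/

set_option autoImplicit false
open scoped Classical
open Filter Topology
open scoped BigOperators

namespace Pool.Agent.KS6_29.HP

open Pool.Agent.W845.PM Pool.Agent.W845.HC

noncomputable section

/-- `pst` is a sharp `d`-threshold for the property `P` of `H ∪ G(n,p)`, minimum degree of `H`
at least `d`. -/
def Sharp (d : ℕ → ℕ) (pst : ℕ → ℝ) (P : (n : ℕ) → SimpleGraph (Fin n) → Prop) : Prop :=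
  ∀ ε : ℝ, 0 < ε →
    (∃ H : (n : ℕ) → SimpleGraph (Fin n), (∀ᶠ n in atTop, d n ≤ (H n).minDegree) ∧
      ∀ p : ℕ → ℝ, (∀ n, 0 ≤ p n ∧ p n ≤ 1) → (∀ᶠ n in atTop, p n ≤ (1 - ε) * pst n) →
        Tendsto (fun n => Prb n (p n) (fun R => P n (H n ⊔ R))) atTop (𝓝 0)) ∧
    (∀ H : (n : ℕ) → SimpleGraph (Fin n), (∀ᶠ n in atTop, d n ≤ (H n).minDegree) →
      ∀ p : ℕ → ℝ, (∀ n, 0 ≤ p n ∧ p n ≤ 1) → (∀ᶠ n in atTop, (1 + ε) * pst n ≤ p n) →
        Tendsto (fun n => Prb n (p n) (fun R => P n (H n ⊔ R))) atTop (𝓝 1))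

/-- Any two different vertices are joined by paths with `3, 4, ..., n - 1` edges, and every
vertex lies on cycles with `3, 4, ..., n` edges. -/
def AllLengths (n : ℕ) (G : SimpleGraph (Fin n)) : Prop :=
  (∀ x y : Fin n, x ≠ y → ∀ ℓ : ℕ, 3 ≤ ℓ → ℓ < n → ∃ p : G.Walk x y, p.IsPath ∧ p.length = ℓ) ∧
  ∀ x : Fin n, ∀ ℓ : ℕ, 3 ≤ ℓ → ℓ ≤ n → ∃ c : G.Walk x x, c.IsCycle ∧ c.length = ℓ

/-- Any two different vertices are joined by a Hamilton path. -/
def HamConnected (n : ℕ) (G : SimpleGraph (Fin n)) : Prop :=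
  ∀ x y : Fin n, x ≠ y → ∃ p : G.Walk x y, p.IsHamiltonian

/-- There are cycles with `3, 4, ..., n` edges. -/
def Pancyclic (n : ℕ) (G : SimpleGraph (Fin n)) : Prop :=
  ∀ ℓ : ℕ, 3 ≤ ℓ → ℓ ≤ n → ∃ (x : Fin n) (c : G.Walk x x), c.IsCycle ∧ c.length = ℓ

theorem Prb_mono {n : ℕ} {p : ℝ} (h0 : 0 ≤ p) (h1 : p ≤ 1) {P Q : SimpleGraph (Fin n) → Prop}
    (h : ∀ G, P G → Q G) : Prb n p P ≤ Prb n p Q := by
  refine EG_mono h0 h1 fun G => ?_
  by_cases hP : P G
  · rw [if_pos hP, if_pos (h G hP)]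
  · rw [if_neg hP]
    split_ifs <;> norm_num

theorem minDeg_of {n : ℕ} {H : SimpleGraph (Fin n)} {d : ℕ} (h : d ≤ H.minDegree) :
    MinDeg H d := by
  intro a
  refine (h.trans (H.minDegree_le_degree a)).trans (le_of_eq ?_)
  change H.degree a = (H.neighborSet a).ncard
  rw [Set.ncard_eq_toFinset_card']
  rfl

theorem delta_tendsto {a η : ℝ} (ha : 0 < a) (hη : 0 < η) (d : ℕ → ℕ)
    (hd : ∀ᶠ n : ℕ in atTop, a * n ≤ d n) :
    Tendsto (fun n : ℕ => (n : ℝ) ^ 3 * (1 - η / n) ^ ((d n) ^ 2 / 32)) atTop (𝓝 0) := by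
  set κ : ℝ := η * a ^ 2 / 32 with hκ
  have hκ0 : 0 < κ := by positivity
  have h1 : Tendsto (fun n : ℕ => (κ * (n : ℝ)) ^ 3 * Real.exp (-(κ * n))) atTop (𝓝 0) :=
    (Real.tendsto_pow_mul_exp_neg_atTop_nhds_zero 3).comp
      (tendsto_natCast_atTop_atTop.const_mul_atTop hκ0)
  have h2 := h1.const_mul (Real.exp η / κ ^ 3)
  rw [mul_zero] at h2
  have hlarge : ∀ᶠ n : ℕ in atTop, η ≤ (n : ℝ) := by
    filter_upwards [tendsto_natCast_atTop_atTop.eventually_ge_atTop η] with n hn using hn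
  refine squeeze_zero' ?_ ?_ h2
  · filter_upwards [hlarge, eventually_ge_atTop 1] with n hn hn1
    have hn0 : (0 : ℝ) < n := by exact_mod_cast hn1
    have : 0 ≤ 1 - η / n := by
      rw [sub_nonneg, div_le_one hn0]
      exact hn
    positivity
  · filter_upwards [hlarge, hd, eventually_ge_atTop 1] with n hn hdn hn1
    have hn0 : (0 : ℝ) < n := by exact_mod_cast hn1
    have hn1' : (1 : ℝ) ≤ n := by exact_mod_cast hn1
    have h3 : 0 ≤ 1 - η / n := by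
      rw [sub_nonneg, div_le_one hn0]
      exact hn
    set M : ℕ := (d n) ^ 2 / 32 with hM
    have h4 : ((d n : ℝ)) ^ 2 / 32 - 1 ≤ M := by
      have : (d n) ^ 2 < 32 * (M + 1) := by
        rw [hM]
        omega
      have h5 : ((d n : ℝ)) ^ 2 < 32 * ((M : ℝ) + 1) := by exact_mod_cast this
      linarith
    have h5 : (a * n) ^ 2 ≤ (d n : ℝ) ^ 2 := by
      apply pow_le_pow_left₀ _ hdn
      positivity
    have h6 : κ * n - η ≤ (η / n) * M := by
      have h7 : (η / n) * ((a * n) ^ 2 / 32 - 1) ≤ (η / n) * M := by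
        apply mul_le_mul_of_nonneg_left _ (by positivity)
        linarith
      have h8 : (η / n) * ((a * n) ^ 2 / 32 - 1) = κ * n - η / n := by
        rw [hκ]
        field_simp
      have h9 : η / n ≤ η := div_le_self hη.le hn1'
      linarith
    have h7 : (1 - η / n) ^ M ≤ Real.exp (-(κ * n)) * Real.exp η := by
      calc (1 - η / n) ^ M ≤ (Real.exp (-(η / n))) ^ M := by
            apply pow_le_pow_left₀ h3
            have := Real.add_one_le_exp (-(η / n))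
            linarith
        _ = Real.exp (-((η / n) * M)) := by
            rw [← Real.exp_nat_mul]
            congr 1
            ring
        _ ≤ Real.exp (-(κ * n) + η) := by
            apply Real.exp_le_exp.2
            linarith
        _ = _ := Real.exp_add _ _
    calc (n : ℝ) ^ 3 * (1 - η / n) ^ M ≤ (n : ℝ) ^ 3 * (Real.exp (-(κ * n)) * Real.exp η) :=
          mul_le_mul_of_nonneg_left h7 (by positivity)
      _ = Real.exp η / κ ^ 3 * ((κ * (n : ℝ)) ^ 3 * Real.exp (-(κ * n))) := by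
          field_simp

theorem upper {a : ℝ} (ha : 0 < a) {d : ℕ → ℕ} (hd : ∀ᶠ n : ℕ in atTop, a * n ≤ d n)
    {pst : ℕ → ℝ} {c : ℝ} (hc : 0 < c) (hpst : ∀ᶠ n : ℕ in atTop, c / n ≤ pst n)
    (hSH : SharpHam d pst) {ε : ℝ} (hε : 0 < ε) (H : (n : ℕ) → SimpleGraph (Fin n))
    (hH : ∀ᶠ n in atTop, d n ≤ (H n).minDegree) (p : ℕ → ℝ) (hp : ∀ n, 0 ≤ p n ∧ p n ≤ 1)
    (hpu : ∀ᶠ n in atTop, (1 + ε) * pst n ≤ p n) :
    Tendsto (fun n => Prb n (p n) (fun R => RichI (H n ⊔ R))) atTop (𝓝 1) := by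
  set p1 : ℕ → ℝ := fun n => max 0 (min 1 ((1 + ε / 2) * pst n)) with hp1
  set η : ℝ := ε * c / 8 with hη
  have hη0 : 0 < η := by positivity
  set δ : ℕ → ℝ := fun n : ℕ => (n : ℝ) ^ 3 * (1 - η / n) ^ ((d n) ^ 2 / 32) with hδ
  have hδt : Tendsto δ atTop (𝓝 0) := delta_tendsto ha hη0 d hd
  have hev : ∀ᶠ n : ℕ in atTop, p1 n = (1 + ε / 2) * pst n ∧ 0 ≤ pst n := by
    filter_upwards [hpst, hpu, eventually_ge_atTop 1] with n h1 h2 h3
    have hn0 : (0 : ℝ) < n := by exact_mod_cast h3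
    have h4 : 0 ≤ pst n := le_trans (by positivity) h1
    have h5 := (hp n).2
    refine ⟨?_, h4⟩
    have h6 : (1 + ε / 2) * pst n ≤ 1 := by nlinarith
    simp only [hp1]
    rw [min_eq_right h6, max_eq_right (by positivity)]
  have hp1b : ∀ n, 0 ≤ p1 n ∧ p1 n ≤ 1 := fun n =>
    ⟨le_max_left _ _, max_le zero_le_one (min_le_left _ _)⟩
  have hham := (hSH (ε / 2) (by positivity)).2 H hH p1 hp1b (by
    filter_upwards [hev] with n hn
    rw [hn.1])
  have hlow : Tendsto (fun n => Prb n (p1 n) (fun R => (H n ⊔ R).IsHamiltonian) - 2 * δ n)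
      atTop (𝓝 1) := by
    have := hham.sub (hδt.const_mul 2)
    simpa using this
  refine tendsto_of_tendsto_of_tendsto_of_le_of_le' hlow tendsto_const_nhds ?_
    (Eventually.of_forall fun n => Prb_le_one (hp n).1 (hp n).2 _)
  have hlarge : ∀ᶠ n : ℕ in atTop, max η (40 / a) ≤ (n : ℝ) := by
    filter_upwards [tendsto_natCast_atTop_atTop.eventually_ge_atTop (max η (40 / a))] with n hn
      using hn
  filter_upwards [hev, hpst, hpu, hH, hd, hlarge, eventually_ge_atTop 3] with n e1 e2 e3 e4 e5 e6 e7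
  have hn0 : (0 : ℝ) < n := by
    have : 0 < n := by omega
    exact_mod_cast this
  have hq0 : 0 ≤ η / n := by positivity
  have hq1 : η / n ≤ 1 := by
    rw [div_le_one hn0]
    exact (le_max_left _ _).trans e6
  have hd40 : 40 ≤ d n := by
    have h1 : 40 / a ≤ (n : ℝ) := (le_max_right _ _).trans e6
    rw [div_le_iff₀ ha] at h1
    have h2 : (40 : ℝ) ≤ d n := by linarith
    exact_mod_cast h2
  have hM : 32 * ((d n) ^ 2 / 32) ≤ (d n) ^ 2 := Nat.mul_div_le _ _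
  have hmin := minDeg_of e4
  have hδ0 : 0 ≤ δ n := by
    have : 0 ≤ 1 - η / n := by linarith
    simp only [hδ]
    positivity
  have hA := sprinkle (n := n) (p := p1 n) (q := η / n) (δ := δ n) (hp1b n).1 (hp1b n).2 hδ0
    (fun R => (H n ⊔ R).IsHamiltonian) (fun R => HC (H n ⊔ R))
    (fun R hR => stepA e7 hd40 hM hmin hq0 hq1 R hR) hq0 hq1
  set p2 : ℝ := p1 n + η / n - p1 n * (η / n) with hp2
  have hp20 : 0 ≤ p2 := by
    have h1 := (hp1b n).1
    have h2 := (hp1b n).2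
    nlinarith
  have hp21 : p2 ≤ 1 := by
    have h1 := (hp1b n).1
    have h2 := (hp1b n).2
    nlinarith
  have hB := sprinkle (n := n) (p := p2) (q := η / n) (δ := δ n) hp20 hp21 hδ0
    (fun R => HC (H n ⊔ R)) (fun R => RichI (H n ⊔ R))
    (fun R hR => stepB hd40 hM hmin hq0 hq1 R e7 hR) hq0 hq1
  set p3 : ℝ := p2 + η / n - p2 * (η / n) with hp3
  have hp30 : 0 ≤ p3 := by nlinarith
  have hp3le : p3 ≤ p n := by
    have h1 : p3 ≤ p1 n + 2 * (η / n) := by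
      have h2 := (hp1b n).1
      have h3 : 0 ≤ p1 n * (η / n) := mul_nonneg h2 hq0
      have h4 : 0 ≤ p2 * (η / n) := mul_nonneg hp20 hq0
      rw [hp3, hp2]
      rw [hp2] at h4
      linarith
    have h2 : 2 * (η / n) = ε / 4 * (c / n) := by
      rw [hη]
      ring
    have h3 : ε / 4 * (c / n) ≤ ε / 4 * pst n := mul_le_mul_of_nonneg_left e2 (by positivity)
    rw [e1.1] at h1
    have h4 := e1.2
    nlinarith
  have hC := t_mon n p3 (p n) (fun R => if RichI (H n ⊔ R) then (1 : ℝ) else 0) hp30 hp3le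
    (hp n).2 (fun G G' hGG => by
      by_cases h : RichI (H n ⊔ G)
      · rw [if_pos h, if_pos (h.mono (sup_le_sup_left hGG _))]
      · rw [if_neg h]
        split_ifs <;> norm_num)
  unfold Prb
  linarith

theorem cyc_of_PL {n : ℕ} {G : SimpleGraph (Fin n)} {x y : Fin n} {ℓ : ℕ} (h : G.Adj x y)
    (hl : 2 ≤ ℓ) (hp : PL G y x ℓ) : ∃ c : G.Walk x x, c.IsCycle ∧ c.length = ℓ + 1 := by
  obtain ⟨p, hp1, hp2⟩ := hp.walk
  refine ⟨SimpleGraph.Walk.cons h p, ?_, by rw [SimpleGraph.Walk.length_cons, hp2]⟩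
  rw [SimpleGraph.Walk.isCycle_iff_isPath_tail_and_le_length]
  refine ⟨by simpa using hp1, ?_⟩
  rw [SimpleGraph.Walk.length_cons, hp2]
  omega

theorem RichI.all {n : ℕ} {G : SimpleGraph (Fin n)} (h : RichI G) : AllLengths n G := by
  refine ⟨fun x y hxy ℓ h1 h2 => (h.1 x y hxy ℓ h1 h2).walk, fun x ℓ h1 h2 => ?_⟩
  obtain ⟨b, c, h3, h4, h5⟩ := h.2 x
  rcases Nat.lt_or_ge 3 ℓ with hl | hl
  · obtain ⟨w, hw1, hw2⟩ := cyc_of_PL h3 (ℓ := ℓ - 1) (by omega)
      (h.1 b x h3.ne' (ℓ - 1) (by omega) (by omega))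
    exact ⟨w, hw1, by omega⟩
  · have e : ℓ = 3 := by omega
    have hPL : PL G b x 2 := by
      refine ⟨[b, c, x], ?_, ?_, rfl, rfl, rfl⟩
      · simp [h4.ne, h5.ne, h3.ne']
      · simp [h4, h5]
    obtain ⟨w, hw1, hw2⟩ := cyc_of_PL h3 le_rfl hPL
    exact ⟨w, hw1, by omega⟩

theorem ham_of_cyc {n : ℕ} {G : SimpleGraph (Fin n)} {x : Fin n} {c : G.Walk x x}
    (h1 : c.IsCycle) (h2 : c.length = n) : G.IsHamiltonian := fun _ =>
  ⟨x, c, SimpleGraph.Walk.isHamiltonianCycle_iff_isCycle_and_length_eq.2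
    ⟨h1, by rw [h2, Fintype.card_fin]⟩⟩

theorem ham_of_pan {n : ℕ} (hn : 3 ≤ n) {G : SimpleGraph (Fin n)} (h : Pancyclic n G) :
    G.IsHamiltonian := by
  obtain ⟨x, c, h1, h2⟩ := h n hn le_rfl
  exact ham_of_cyc h1 h2

theorem ham_of_conn {n : ℕ} (hn : 3 ≤ n) {G : SimpleGraph (Fin n)} (h : HamConnected n G) :
    G.IsHamiltonian := by
  have hne : (⟨0, by omega⟩ : Fin n) ≠ ⟨1, by omega⟩ := by simp [Fin.ext_iff]
  obtain ⟨p, hp⟩ := h _ _ hne
  have hnil : ¬ p.Nil := SimpleGraph.Walk.not_nil_of_ne hne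
  have hadj := p.adj_snd hnil
  obtain ⟨q, hq⟩ := h _ _ hadj.ne'
  rw [SimpleGraph.Walk.isHamiltonian_iff_isPath_and_length_eq, Fintype.card_fin] at hq
  refine ham_of_cyc (c := SimpleGraph.Walk.cons hadj q) ?_ ?_
  · rw [SimpleGraph.Walk.isCycle_iff_isPath_tail_and_le_length]
    refine ⟨by simpa using hq.1, ?_⟩
    rw [SimpleGraph.Walk.length_cons, hq.2]
    omega
  · rw [SimpleGraph.Walk.length_cons, hq.2]
    omega

theorem AllLengths.conn {n : ℕ} (hn : 4 ≤ n) {G : SimpleGraph (Fin n)} (h : AllLengths n G) :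
    HamConnected n G := by
  intro x y hxy
  obtain ⟨p, h1, h2⟩ := h.1 x y hxy (n - 1) (by omega) (by omega)
  refine ⟨p, ?_⟩
  rw [SimpleGraph.Walk.isHamiltonian_iff_isPath_and_length_eq, Fintype.card_fin]
  exact ⟨h1, h2⟩

theorem AllLengths.pan {n : ℕ} (hn : 1 ≤ n) {G : SimpleGraph (Fin n)} (h : AllLengths n G) :
    Pancyclic n G := fun ℓ h1 h2 => by
  obtain ⟨c, hc1, hc2⟩ := h.2 ⟨0, hn⟩ ℓ h1 h2
  exact ⟨_, c, hc1, hc2⟩

theorem main (a b : ℝ) (d : ℕ → ℕ) (ha : 0 < a) (hb : b < 1 / 2)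
    (hd : ∀ᶠ n : ℕ in atTop, a * n ≤ d n ∧ (d n : ℝ) ≤ b * n) :
    ∃ pst : ℕ → ℝ, (∃ c C : ℝ, 0 < c ∧ 0 < C ∧ ∀ᶠ n : ℕ in atTop,
      c / n ≤ pst n ∧ pst n ≤ C / n) ∧ SharpLF d pst ∧
      (∀ P : (n : ℕ) → SimpleGraph (Fin n) → Prop,
        (∀ᶠ n in atTop, ∀ G, P n G → G.IsHamiltonian) →
        (∀ᶠ n in atTop, ∀ G, AllLengths n G → P n G) → Sharp d pst P) := by
  obtain ⟨pst, ⟨c, C, hc, hC, hcC⟩, hSH, hLF⟩ :=
    top t_lam t_pex t_pst1 t_qth t_low t_high a b d ha hb hd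
  refine ⟨pst, ⟨c, C, hc, hC, hcC⟩, hLF, fun P hP1 hP2 ε hε => ⟨?_, ?_⟩⟩
  · obtain ⟨H, hH1, hH2⟩ := (hSH ε hε).1
    refine ⟨H, hH1, fun p hp hpl => ?_⟩
    refine squeeze_zero' (Eventually.of_forall fun n => Prb_nonneg (hp n).1 (hp n).2 _) ?_
      (hH2 p hp hpl)
    filter_upwards [hP1] with n hn
    exact Prb_mono (hp n).1 (hp n).2 fun R hR => hn _ hR
  · intro H hH p hp hpu
    refine tendsto_of_tendsto_of_tendsto_of_le_of_le'
      (upper ha (hd.mono fun n h => h.1) hc (hcC.mono fun n h => h.1) hSH hε H hH p hp hpu)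
      tendsto_const_nhds ?_ (Eventually.of_forall fun n => Prb_le_one (hp n).1 (hp n).2 _)
    filter_upwards [hP2] with n hn
    exact Prb_mono (hp n).1 (hp n).2 fun R hR => hn _ hR.all

end

end Pool.Agent.KS6_29.HP
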