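import Pool.Agent.KS6_29.HP.Cand

/-!
# From Hamilton paths to paths of all lengths
-/

set_option autoImplicit false

namespace Pool.Agent.KS6_29.HP

open Finset

variable {V : Type} [Fintype V]

/-- Long paths: `k` vertices are left out. -/
theorem stepLong {H G : SimpleGraph V} (hHG : H ≤ G) {n d h k : ℕ} {v : ℕ → V} (hv : En G n v)
    (hd : MinDeg H d) (hk1 : 1 ≤ k) (hk : k + 2 + 2 * h ≤ n) (hh : 1 ≤ h) :
    ∃ K : SimpleGraph V, h * (d - h) ≤ 4 * K.edgeSet.ncard ∧
      ∀ Q : SimpleGraph V, (∃ a b, K.Adj a b ∧ Q.Adj a b) →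
        PL (G ⊔ Q) (v 0) (v (n - 1)) (n - 1 - k) := by
  classical
  set U : ℕ → Finset ℕ := fun i => (nb H n v (v i)).filter (fun j => i < j ∧ j + 1 < n) with hU
  have hUm : ∀ i j, j ∈ U i ↔ (j < n ∧ H.Adj (v i) (v j)) ∧ i < j ∧ j + 1 < n := by
    intro i j
    rw [hU]
    simp only [mem_filter, mem_nb]
  have hUc : ∀ i, i < h → d - h ≤ (U i).card := by
    intro i hi
    have h1 : nb H n v (v i) ⊆ U i ∪ (range i ∪ {n - 1}) := by
      intro j hj
      rw [mem_nb] at hj
      simp only [mem_union, hUm, mem_range, mem_singleton]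
      have hne : j ≠ i := fun e => by rw [e] at hj; exact (H.loopless.irrefl _) hj.2
      rcases Nat.lt_or_ge j i with h2 | h2
      · exact Or.inr (Or.inl h2)
      · rcases Nat.lt_or_ge (j + 1) n with h3 | h3
        · exact Or.inl ⟨hj, by omega, h3⟩
        · exact Or.inr (Or.inr (by omega))
    have h2 := Finset.card_le_card h1
    have h3 := Finset.card_union_le (U i) (range i ∪ {n - 1})
    have h4 := Finset.card_union_le (range i) {n - 1}
    rw [card_range, card_singleton] at h4
    have h5 := card_nb hv hd (v i)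
    omega
  set T1 : Finset (ℕ × ℕ) :=
    (range h ×ˢ range n).filter (fun p => p.2 ∈ U p.1 ∧ p.1 + 1 + k ≤ p.2) with hT1
  set J : ℕ → Finset ℕ := fun i => (U i).filter (fun j => j ≤ i + k) with hJ
  have hsum : h * (d - h) ≤ T1.card + ∑ i ∈ range h, (J i).card := by
    have e1 : T1.card = ∑ i ∈ range h, ((U i).filter (fun j => i + 1 + k ≤ j)).card := by
      rw [hT1, Finset.card_filter, Finset.sum_product]
      apply Finset.sum_congr rfl
      intro i _
      rw [← Finset.card_filter]
      congr 1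
      ext j
      simp only [mem_filter, mem_range, hUm]
      tauto
    rw [e1, ← Finset.sum_add_distrib]
    calc h * (d - h) = ∑ _i ∈ range h, (d - h) := by rw [sum_const, card_range, smul_eq_mul]
      _ ≤ _ := by
        apply Finset.sum_le_sum
        intro i hi
        refine (hUc i (mem_range.1 hi)).trans ?_
        rw [hJ]
        have : U i ⊆ ((U i).filter (fun j => i + 1 + k ≤ j)) ∪ ((U i).filter (fun j => j ≤ i + k)) := by
          intro j hj
          simp only [mem_union, mem_filter]
          rcases Nat.lt_or_ge (i + k) j with h1 | h1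
          · exact Or.inl ⟨hj, by omega⟩
          · exact Or.inr ⟨hj, h1⟩
        exact (Finset.card_le_card this).trans (Finset.card_union_le _ _)
  rcases Nat.lt_or_ge (2 * T1.card) (h * (d - h)) with hcase | hcase
  · -- disjoint chords
    have hex : ∃ i ∈ range h, d - h ≤ 2 * (J i).card := by
      by_contra hno
      push Not at hno
      have h1 : ∑ i ∈ range h, 2 * (J i).card ≤ ∑ _i ∈ range h, (d - h) :=
        Finset.sum_le_sum fun i hi => (hno i hi).le
      rw [← Finset.mul_sum, sum_const, card_range, smul_eq_mul] at h1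
      omega
    obtain ⟨i0, hi0, hJc⟩ := hex
    rw [mem_range] at hi0
    set T2 : Finset (ℕ × ℕ) := J i0 ×ˢ range h with hT2
    have hmem : ∀ p ∈ T2, H.Adj (v i0) (v p.1) ∧ i0 < p.1 ∧ p.1 + 1 < n ∧ p.1 ≤ i0 + k ∧
        p.2 < h := by
      intro p hp
      rw [hT2, mem_product, hJ, mem_filter, hUm, mem_range] at hp
      tauto
    have hf : ∀ p ∈ T2, p.1 + p.2 < n := by
      intro p hp
      obtain ⟨h1, h2, h3, h4, h5⟩ := hmem p hp
      omega
    have hg : ∀ p ∈ T2, p.2 + k + 2 + i0 < n := by
      intro p hp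
      obtain ⟨h1, h2, h3, h4, h5⟩ := hmem p hp
      omega
    refine ⟨cand T2 (fun p => v (p.1 + p.2)) (fun p => v (p.2 + k + 2 + i0)), ?_, ?_⟩
    · have hcnt := count_edges (cand T2 (fun p => v (p.1 + p.2)) (fun p => v (p.2 + k + 2 + i0)))
        T2 (fun p => v (p.1 + p.2)) (fun p => v (p.2 + k + 2 + i0))
        (fun p hp => cand_adj hp fun e => by
          have := hv.inj _ _ (hf p hp) (hg p hp) e
          obtain ⟨h1, h2, h3, h4, h5⟩ := hmem p hp
          omega) 1 ?_
      · have h6 : T2.card = (J i0).card * h := by rw [hT2, card_product, card_range]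
        rw [h6] at hcnt
        nlinarith
      · intro a b
        obtain ⟨α, hα, rfl⟩ := hv.surj a
        obtain ⟨β, hβ, rfl⟩ := hv.surj b
        have h1 : ({α - (β - k - 2 - i0)} : Finset ℕ).card * ({β - k - 2 - i0} : Finset ℕ).card
            ≤ 1 := by simp
        refine le_trans (fib_le (P := fun p => v (p.1 + p.2) = v α ∧
          v (p.2 + k + 2 + i0) = v β) ?_) h1
        intro p hp hh
        have e1 := hv.inj _ _ (hf p hp) hα hh.1
        have e2 := hv.inj _ _ (hg p hp) hβ hh.2
        simp only [mem_singleton]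
        omega
    · intro Q hQ
      obtain ⟨⟨j, s⟩, hp, hadj⟩ := cand_elim hQ
      obtain ⟨h1, h2, h3, h4, h5⟩ := hmem _ hp
      simp only at hadj h1 h2 h3 h4 h5
      set R : ℕ → ℕ → Prop := fun i j => (G ⊔ Q).Adj (v i) (v j) with hR
      have hst : ∀ m, m + 1 < n → R m (m + 1) := fun m hm => Or.inl (hv.adj m hm)
      have r0 : R i0 j := Or.inl (hHG h1)
      have rq : R (j + s) (s + k + 2 + i0) := Or.inr hadj
      have seg : ∀ a b, a ≤ b → b < n → Pth R (sg a b) a b := fun a b hab hb =>
        pth_sg hab fun m h1 h2 => hst m (by omega)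
      have hP := ((seg 0 i0 (by omega) (by omega)).append
        (seg j (j + s) (by omega) (by omega)) r0).append
        (seg (s + k + 2 + i0) (n - 1) (by omega) (by omega)) rq
      refine PL.of_idx hv.inj ?_ ?_ hP ?_
      · intro m hm
        simp only [List.mem_append, mem_sg] at hm
        omega
      · simp only [List.nodup_append, sg_nodup, true_and, List.mem_append, mem_sg]
        repeat' apply And.intro
        all_goals (intros; omega)
      · simp only [List.length_append, length_sg]
        omega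
  · -- crossing chords
    have hmem : ∀ p ∈ T1, H.Adj (v p.1) (v p.2) ∧ p.1 < h ∧ p.1 < p.2 ∧ p.2 + 1 < n ∧
        p.1 + 1 + k ≤ p.2 := by
      intro p hp
      rw [hT1, mem_filter, mem_product, hUm, mem_range] at hp
      tauto
    have hf : ∀ p ∈ T1, p.1 + 1 + k < n := by
      intro p hp
      obtain ⟨h1, h2, h3, h4, h5⟩ := hmem p hp
      omega
    have hg : ∀ p ∈ T1, p.2 + 1 < n := fun p hp => (hmem p hp).2.2.2.1
    refine ⟨cand T1 (fun p => v (p.1 + 1 + k)) (fun p => v (p.2 + 1)), ?_, ?_⟩
    · have hcnt := count_edges (cand T1 (fun p => v (p.1 + 1 + k)) (fun p => v (p.2 + 1)))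
        T1 (fun p => v (p.1 + 1 + k)) (fun p => v (p.2 + 1))
        (fun p hp => cand_adj hp fun e => by
          have := hv.inj _ _ (hf p hp) (hg p hp) e
          obtain ⟨h1, h2, h3, h4, h5⟩ := hmem p hp
          omega) 1 ?_
      · omega
      · intro a b
        obtain ⟨α, hα, rfl⟩ := hv.surj a
        obtain ⟨β, hβ, rfl⟩ := hv.surj b
        have h1 : ({α - 1 - k} : Finset ℕ).card * ({β - 1} : Finset ℕ).card ≤ 1 := by simp
        refine le_trans (fib_le (P := fun p => v (p.1 + 1 + k) = v α ∧
          v (p.2 + 1) = v β) ?_) h1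
        intro p hp hh
        have e1 := hv.inj _ _ (hf p hp) hα hh.1
        have e2 := hv.inj _ _ (hg p hp) hβ hh.2
        simp only [mem_singleton]
        omega
    · intro Q hQ
      obtain ⟨⟨i, j⟩, hp, hadj⟩ := cand_elim hQ
      obtain ⟨h1, h2, h3, h4, h5⟩ := hmem _ hp
      simp only at hadj h1 h2 h3 h4 h5
      set R : ℕ → ℕ → Prop := fun i j => (G ⊔ Q).Adj (v i) (v j) with hR
      have hs : ∀ a b, R a b → R b a := fun a b h => SimpleGraph.Adj.symm h
      have hst : ∀ m, m + 1 < n → R m (m + 1) := fun m hm => Or.inl (hv.adj m hm)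
      have r0 : R i j := Or.inl (hHG h1)
      have rq : R (i + 1 + k) (j + 1) := Or.inr hadj
      have seg : ∀ a b, a ≤ b → b < n → Pth R (sg a b) a b := fun a b hab hb =>
        pth_sg hab fun m h1 h2 => hst m (by omega)
      have rseg : ∀ a b, a ≤ b → b < n → Pth R (sg a b).reverse b a := fun a b hab hb =>
        pth_rsg hs hab fun m h1 h2 => hst m (by omega)
      have hP := ((seg 0 i (by omega) (by omega)).append
        (rseg (i + 1 + k) j (by omega) (by omega)) r0).append
        (seg (j + 1) (n - 1) (by omega) (by omega)) rq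
      refine PL.of_idx hv.inj ?_ ?_ hP ?_
      · intro m hm
        simp only [List.mem_append, List.mem_reverse, mem_sg] at hm
        omega
      · simp only [List.nodup_append, List.nodup_reverse, sg_nodup, true_and, List.mem_append,
          List.mem_reverse, mem_sg]
        repeat' apply And.intro
        all_goals (intros; omega)
      · simp only [List.length_append, List.length_reverse, length_sg]
        omega

/-- Short paths. -/
theorem stepShort {H G : SimpleGraph V} (hHG : H ≤ G) {n d m : ℕ} {v : ℕ → V} (hv : En G n v)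
    (hd : MinDeg H d) (hm : 1 ≤ m) (hmn : m < n) :
    ∃ K : SimpleGraph V, (d - m - 1) ^ 2 ≤ 2 * K.edgeSet.ncard ∧
      ∀ Q : SimpleGraph V, (∃ a b, K.Adj a b ∧ Q.Adj a b) →
        PL (G ⊔ Q) (v 0) (v (n - 1)) (m + 2) := by
  classical
  set A := (nb H n v (v 0)).filter (fun i => i + m < n) with hA
  set B := (nb H n v (v (n - 1))).filter (fun j => j ≠ 0) with hB
  have hAc : d - m ≤ A.card := by
    have h1 : nb H n v (v 0) ⊆ A ∪ (Finset.Ico (n - m) n) := by
      intro j hj
      have hj' := hj
      rw [mem_nb] at hj'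
      rw [hA]
      simp only [mem_union, mem_filter, mem_Ico]
      rcases Nat.lt_or_ge (j + m) n with h2 | h2
      · exact Or.inl ⟨hj, h2⟩
      · exact Or.inr ⟨by omega, hj'.1⟩
    have h2 := (Finset.card_le_card h1).trans (Finset.card_union_le _ _)
    rw [Nat.card_Ico] at h2
    have h5 := card_nb hv hd (v 0)
    omega
  have hBc : d - 1 ≤ B.card := by
    have h1 : nb H n v (v (n - 1)) ⊆ B ∪ {0} := by
      intro j hj
      rw [hB]
      simp only [mem_union, mem_filter, mem_singleton]
      by_cases h : j = 0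
      · exact Or.inr h
      · exact Or.inl ⟨hj, h⟩
    have h2 := (Finset.card_le_card h1).trans (Finset.card_union_le _ _)
    rw [card_singleton] at h2
    have h5 := card_nb hv hd (v (n - 1))
    omega
  set T : Finset (ℕ × ℕ) := (A ×ˢ B).filter (fun p => p.2 < p.1 ∨ p.1 + m ≤ p.2) with hT
  have hTc : (d - m - 1) ^ 2 ≤ T.card := by
    have h1 : (A ×ˢ B).card ≤ T.card + A.card * m := by
      rw [← Finset.card_filter_add_card_filter_not (s := A ×ˢ B)
        (fun p => p.2 < p.1 ∨ p.1 + m ≤ p.2)]
      apply Nat.add_le_add_left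
      have h2 : A.card * m = (A ×ˢ range m).card := by rw [card_product, card_range]
      rw [h2]
      refine Finset.card_le_card_of_injOn (fun p => (p.1, p.2 - p.1)) ?_ ?_
      · intro p hp
        simp only [coe_filter, mem_product, Set.mem_ofPred_eq] at hp
        simp only [mem_coe, mem_product, mem_range]
        exact ⟨hp.1.1, by omega⟩
      · intro p hp q hq hpq
        simp only [coe_filter, mem_product, Set.mem_ofPred_eq] at hp hq
        simp only [Prod.mk.injEq] at hpq
        exact Prod.ext hpq.1 (by omega)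
    rw [card_product] at h1
    rcases Nat.lt_or_ge d (m + 1) with h5 | h5
    · have : d - m - 1 = 0 := by omega
      rw [this]; simp
    · obtain ⟨e, rfl⟩ := Nat.exists_eq_add_of_le h5
      have h6 : m + 1 + e - m - 1 = e := by omega
      rw [h6]
      have h7 : e + 1 ≤ A.card := by omega
      have h8 : e + m ≤ B.card := by omega
      nlinarith
  have hmem : ∀ p ∈ T, H.Adj (v 0) (v p.1) ∧ p.1 + m < n ∧ H.Adj (v (n - 1)) (v p.2) ∧
      p.2 < n ∧ p.2 ≠ 0 ∧ (p.2 < p.1 ∨ p.1 + m ≤ p.2) ∧ p.1 ≠ 0 ∧ p.2 ≠ n - 1 := by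
    intro p hp
    rw [hT, mem_filter, mem_product, hA, hB, mem_filter, mem_filter, mem_nb, mem_nb] at hp
    obtain ⟨⟨⟨⟨h1, h2⟩, h3⟩, ⟨⟨h4, h5⟩, h6⟩⟩, h7⟩ := hp
    refine ⟨h2, h3, h5, h4, h6, h7, ?_, ?_⟩
    · intro e; rw [e] at h2; exact (H.loopless.irrefl _) h2
    · intro e; rw [e] at h5; exact (H.loopless.irrefl _) h5
  have hf : ∀ p ∈ T, p.1 + m - 1 < n := fun p hp => by
    have := (hmem p hp).2.1
    omega
  have hg : ∀ p ∈ T, p.2 < n := fun p hp => (hmem p hp).2.2.2.1
  refine ⟨cand T (fun p => v (p.1 + m - 1)) (fun p => v p.2), ?_, ?_⟩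
  · refine hTc.trans ?_
    have hcnt := count_edges (cand T (fun p => v (p.1 + m - 1)) (fun p => v p.2))
      T (fun p => v (p.1 + m - 1)) (fun p => v p.2)
      (fun p hp => cand_adj hp fun e => by
        have := hv.inj _ _ (hf p hp) (hg p hp) e
        obtain ⟨h1, h2, h3, h4, h5, h6, h7, h8⟩ := hmem p hp
        omega) 1 ?_
    · omega
    · intro a b
      obtain ⟨α, hα, rfl⟩ := hv.surj a
      obtain ⟨β, hβ, rfl⟩ := hv.surj b
      have h1 : ({α + 1 - m} : Finset ℕ).card * ({β} : Finset ℕ).card ≤ 1 := by simp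
      refine le_trans (fib_le (P := fun p => v (p.1 + m - 1) = v α ∧ v p.2 = v β) ?_) h1
      intro p hp hh
      have e1 := hv.inj _ _ (hf p hp) hα hh.1
      have e2 := hv.inj _ _ (hg p hp) hβ hh.2
      simp only [mem_singleton]
      omega
  · intro Q hQ
    obtain ⟨⟨i, j⟩, hp, hadj⟩ := cand_elim hQ
    obtain ⟨h1, h2, h3, h4, h5, h6, h7, h8⟩ := hmem _ hp
    simp only at hadj h1 h2 h3 h4 h5 h6 h7 h8
    set R : ℕ → ℕ → Prop := fun i j => (G ⊔ Q).Adj (v i) (v j) with hR
    have hst : ∀ m, m + 1 < n → R m (m + 1) := fun m hm => Or.inl (hv.adj m hm)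
    have r0 : R 0 i := Or.inl (hHG h1)
    have r1 : R j (n - 1) := Or.inl (hHG h3.symm)
    have rq : R (i + m - 1) j := Or.inr hadj
    have seg : ∀ a b, a ≤ b → b < n → Pth R (sg a b) a b := fun a b hab hb =>
      pth_sg hab fun m h1 h2 => hst m (by omega)
    have hP := (((pth_single (R := R) 0).append
      (seg i (i + m - 1) (by omega) (by omega)) r0).append
      (pth_single j) rq).append (pth_single (n - 1)) r1
    refine PL.of_idx hv.inj ?_ ?_ hP ?_
    · intro m hm
      simp only [List.mem_append, List.mem_singleton, mem_sg] at hm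
      omega
    · simp only [List.nodup_append, List.nodup_singleton, sg_nodup, true_and, List.mem_append,
        List.mem_singleton, mem_sg]
      repeat' apply And.intro
      all_goals (intros; omega)
    · simp only [List.length_append, List.length_singleton, length_sg]
      omega

/-- Triangles. -/
theorem stepTri {H G : SimpleGraph V} (hHG : H ≤ G) {n d : ℕ} {v : ℕ → V} (hv : En G n v)
    (hd : MinDeg H d) (a : V) :
    ∃ K : SimpleGraph V, (d - 1) ^ 2 ≤ 2 * K.edgeSet.ncard ∧
      ∀ Q : SimpleGraph V, (∃ b c, K.Adj b c ∧ Q.Adj b c) →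
        ∃ b c, (G ⊔ Q).Adj a b ∧ (G ⊔ Q).Adj b c ∧ (G ⊔ Q).Adj c a := by
  classical
  set A := nb H n v a with hA
  have hAc : d ≤ A.card := card_nb hv hd a
  set T : Finset (ℕ × ℕ) := (A ×ˢ A).filter (fun p => p.1 ≠ p.2) with hT
  have hTc : (d - 1) ^ 2 ≤ T.card := by
    have h1 : (A ×ˢ A).card ≤ T.card + A.card := by
      rw [← Finset.card_filter_add_card_filter_not (s := A ×ˢ A) (fun p => p.1 ≠ p.2)]
      apply Nat.add_le_add_left
      refine Finset.card_le_card_of_injOn Prod.fst ?_ ?_
      · intro p hp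
        simp only [coe_filter, mem_product, Set.mem_ofPred_eq] at hp
        exact hp.1.1
      · intro p hp q hq hpq
        simp only [coe_filter, mem_product, Set.mem_ofPred_eq, not_not] at hp hq
        exact Prod.ext hpq (by rw [← hp.2, ← hq.2]; exact hpq)
    rw [card_product] at h1
    rcases Nat.lt_or_ge d 1 with h5 | h5
    · have : d - 1 = 0 := by omega
      rw [this]; simp
    · obtain ⟨e, rfl⟩ := Nat.exists_eq_add_of_le h5
      have h6 : 1 + e - 1 = e := by omega
      rw [h6]
      nlinarith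
  have hmem : ∀ p ∈ T, p.1 < n ∧ H.Adj a (v p.1) ∧ p.2 < n ∧ H.Adj a (v p.2) ∧ p.1 ≠ p.2 := by
    intro p hp
    rw [hT, mem_filter, mem_product, hA, mem_nb, mem_nb] at hp
    tauto
  refine ⟨cand T (fun p => v p.1) (fun p => v p.2), ?_, ?_⟩
  · refine hTc.trans ?_
    have hcnt := count_edges (cand T (fun p => v p.1) (fun p => v p.2))
      T (fun p => v p.1) (fun p => v p.2)
      (fun p hp => cand_adj hp fun e => by
        have h := hmem p hp
        exact h.2.2.2.2 (hv.inj _ _ h.1 h.2.2.1 e)) 1 ?_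
    · omega
    · intro x y
      obtain ⟨α, hα, rfl⟩ := hv.surj x
      obtain ⟨β, hβ, rfl⟩ := hv.surj y
      have h1 : ({α} : Finset ℕ).card * ({β} : Finset ℕ).card ≤ 1 := by simp
      refine le_trans (fib_le (P := fun p => v p.1 = v α ∧ v p.2 = v β) ?_) h1
      intro p hp hh
      have h := hmem p hp
      have e1 := hv.inj _ _ h.1 hα hh.1
      have e2 := hv.inj _ _ h.2.2.1 hβ hh.2
      simp only [mem_singleton]
      exact ⟨e1, e2⟩
  · intro Q hQ
    obtain ⟨⟨i, j⟩, hp, hadj⟩ := cand_elim hQ
    have h := hmem _ hp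
    exact ⟨v i, v j, Or.inl (hHG h.2.1), Or.inr hadj, Or.inl (hHG h.2.2.2.1.symm)⟩

end Pool.Agent.KS6_29.HP
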