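import Pool.Agent.KS6_29.HP.Long
import Pool.Graph.R_seed8.W845.HC.Fin

/-!
# The probabilistic part: adding a few random edges
-/

set_option autoImplicit false
open scoped Classical
open Filter Topology
open scoped BigOperators

namespace Pool.Agent.KS6_29.HP

open Pool.Agent.W845.PM Pool.Agent.W845.HC

noncomputable section

/-- Hamilton-connected. -/
def HC {n : ℕ} (G : SimpleGraph (Fin n)) : Prop := ∀ x y : Fin n, x ≠ y → PL G x y (n - 1)

/-- Paths of all lengths `3, ..., n - 1` between any two vertices, and triangles. -/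
def RichI {n : ℕ} (G : SimpleGraph (Fin n)) : Prop :=
  (∀ x y : Fin n, x ≠ y → ∀ ℓ : ℕ, 3 ≤ ℓ → ℓ < n → PL G x y ℓ) ∧
    ∀ a : Fin n, ∃ b c, G.Adj a b ∧ G.Adj b c ∧ G.Adj c a

theorem RichI.mono {n : ℕ} {G G' : SimpleGraph (Fin n)} (h : G ≤ G') (hG : RichI G) : RichI G' :=
  ⟨fun x y hxy ℓ h1 h2 => (hG.1 x y hxy ℓ h1 h2).mono h, fun a => by
    obtain ⟨b, c, h1, h2, h3⟩ := hG.2 a
    exact ⟨b, c, h h1, h h2, h h3⟩⟩

theorem miss {n : ℕ} (q : ℝ) (K : SimpleGraph (Fin n)) :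
    EG n q (fun Q => if (∃ a b, K.Adj a b ∧ Q.Adj a b) then (0 : ℝ) else 1) =
      (1 - q) ^ K.edgeSet.ncard := by
  have h := t_genf n q 0 K
  rw [mul_zero, add_zero] at h
  have h2 : (1 - q) ^ K.edgeSet.ncard = (1 - q) ^ (ec K) := rfl
  rw [h2, ← h]
  refine EG_congr fun Q => ?_
  by_cases hQ : ∃ a b, K.Adj a b ∧ Q.Adj a b
  · rw [if_pos hQ, zero_pow]
    intro h0
    unfold ec at h0
    rw [Set.ncard_eq_zero (Set.toFinite _), SimpleGraph.edgeSet_eq_empty] at h0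
    obtain ⟨a, b, h1, h2⟩ := hQ
    have h3 : (K ⊓ Q).Adj a b := ⟨h1, h2⟩
    rw [h0] at h3
    exact h3
  · rw [if_neg hQ]
    have h0 : ec (K ⊓ Q) = 0 := by
      unfold ec
      rw [Set.ncard_eq_zero (Set.toFinite _), SimpleGraph.edgeSet_eq_empty]
      ext a b
      simp only [SimpleGraph.inf_adj, SimpleGraph.bot_adj, iff_false]
      exact fun h => hQ ⟨a, b, h⟩
    rw [h0, pow_zero]

theorem union_bound {n : ℕ} {ι : Type} (s : Finset ι) (P : ι → SimpleGraph (Fin n) → Prop)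
    (M : ℕ) (hK : ∀ i ∈ s, ∃ K : SimpleGraph (Fin n), M ≤ K.edgeSet.ncard ∧
      ∀ Q : SimpleGraph (Fin n), (∃ a b, K.Adj a b ∧ Q.Adj a b) → P i Q) (q : ℝ) (h0 : 0 ≤ q)
    (h1 : q ≤ 1) (B : SimpleGraph (Fin n) → Prop) (hB : ∀ Q, (∀ i ∈ s, P i Q) → B Q) :
    1 - s.card * (1 - q) ^ M ≤ EG n q (fun Q => if B Q then (1 : ℝ) else 0) := by
  have hK' : ∀ i, ∃ K : SimpleGraph (Fin n), i ∈ s → (M ≤ K.edgeSet.ncard ∧
      ∀ Q : SimpleGraph (Fin n), (∃ a b, K.Adj a b ∧ Q.Adj a b) → P i Q) := by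
    intro i
    by_cases hi : i ∈ s
    · obtain ⟨K, hK1⟩ := hK i hi
      exact ⟨K, fun _ => hK1⟩
    · exact ⟨⊥, fun h => absurd h hi⟩
  choose K hKs using hK'
  have e1 : EG n q (fun Q => 1 - ∑ i ∈ s, (if (∃ a b, (K i).Adj a b ∧ Q.Adj a b) then
      (0 : ℝ) else 1)) = 1 - ∑ i ∈ s, (1 - q) ^ (K i).edgeSet.ncard := by
    rw [EG_sub, EG_const oneT, EG_sum]
    congr 1
    exact Finset.sum_congr rfl fun i _ => miss q (K i)
  have e2 : 1 - s.card * (1 - q) ^ M ≤ 1 - ∑ i ∈ s, (1 - q) ^ (K i).edgeSet.ncard := by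
    have : ∑ i ∈ s, (1 - q) ^ (K i).edgeSet.ncard ≤ ∑ _i ∈ s, (1 - q) ^ M :=
      Finset.sum_le_sum fun i hi =>
        pow_le_pow_of_le_one (by linarith) (by linarith) (hKs i hi).1
    rw [Finset.sum_const, nsmul_eq_mul] at this
    linarith
  refine e2.trans ?_
  rw [← e1]
  refine EG_mono h0 h1 fun Q => ?_
  by_cases hall : ∀ i ∈ s, ∃ a b, (K i).Adj a b ∧ Q.Adj a b
  · have hBQ : B Q := hB Q fun i hi => (hKs i hi).2 Q (hall i hi)
    rw [if_pos hBQ]
    have : 0 ≤ ∑ i ∈ s, (if (∃ a b, (K i).Adj a b ∧ Q.Adj a b) then (0 : ℝ) else 1) :=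
      Finset.sum_nonneg fun i _ => by split_ifs <;> norm_num
    linarith
  · push Not at hall
    obtain ⟨i, hi, hno⟩ := hall
    have h3 : (1 : ℝ) ≤ ∑ i ∈ s, (if (∃ a b, (K i).Adj a b ∧ Q.Adj a b) then (0 : ℝ) else 1) := by
      have h4 := Finset.single_le_sum (f := fun i =>
        (if (∃ a b, (K i).Adj a b ∧ Q.Adj a b) then (0 : ℝ) else 1))
        (fun j _ => by split_ifs <;> norm_num) hi
      refine le_trans ?_ h4
      rw [if_neg]
      rintro ⟨a, b, h5, h6⟩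
      exact hno a b h5 h6
    have h5 : (0 : ℝ) ≤ (if B Q then (1 : ℝ) else 0) := by split_ifs <;> norm_num
    linarith

theorem sprinkle {n : ℕ} {p q δ : ℝ} (hp0 : 0 ≤ p) (hp1 : p ≤ 1) (hδ : 0 ≤ δ)
    (A B : SimpleGraph (Fin n) → Prop)
    (h : ∀ G, A G → 1 - δ ≤ EG n q (fun G' => if B (G ⊔ G') then (1 : ℝ) else 0))
    (hq0 : 0 ≤ q) (hq1 : q ≤ 1) :
    EG n p (fun G => if A G then (1 : ℝ) else 0) - δ ≤
      EG n (p + q - p * q) (fun G => if B G then (1 : ℝ) else 0) := by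
  rw [← t_sup n p q (fun G => if B G then (1 : ℝ) else 0)]
  have h1 : EG n p (fun G => (if A G then (1 : ℝ) else 0) - δ) ≤
      EG n p (fun G => EG n q (fun G' => if B (G ⊔ G') then (1 : ℝ) else 0)) := by
    refine EG_mono hp0 hp1 fun G => ?_
    by_cases hA : A G
    · rw [if_pos hA]
      exact h G hA
    · rw [if_neg hA]
      have : 0 ≤ EG n q (fun G' => if B (G ⊔ G') then (1 : ℝ) else 0) :=
        EG_nonneg hq0 hq1 fun G' => by split_ifs <;> norm_num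
      linarith
  rw [EG_sub, EG_const oneT] at h1
  exact h1

theorem bound_le {d M : ℕ} (hd : 40 ≤ d) (hM : 32 * M ≤ d ^ 2) :
    8 * M ≤ (d - 5) ^ 2 ∧ 4 * M ≤ (d / 4) * (d - d / 4) ∧ 2 * M ≤ (d - 1) ^ 2 ∧
      ∀ m, m + 1 ≤ 2 * (d / 4) → 2 * M ≤ (d - m - 1) ^ 2 := by
  obtain ⟨e, rfl⟩ := Nat.exists_eq_add_of_le hd
  have h1 : 40 + e - 5 = 35 + e := by omega
  have h2 : 40 + e - 1 = 39 + e := by omega
  rw [h1, h2]
  refine ⟨by nlinarith, ?_, by nlinarith, ?_⟩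
  · set h := (40 + e) / 4 with hh
    have h3 : 4 * h ≤ 40 + e := by omega
    have h4 : 40 + e ≤ 4 * h + 3 := by omega
    obtain ⟨r, hr⟩ := Nat.exists_eq_add_of_le (show h ≤ 40 + e by omega)
    have h5 : 40 + e - h = r := by omega
    rw [h5]
    have h6 : 3 * h ≤ r := by omega
    have h7 : r ≤ 3 * h + 3 := by omega
    have h8 : 10 ≤ h := by omega
    rw [hr] at hM
    nlinarith
  · intro m hm
    obtain ⟨r, hr⟩ := Nat.exists_eq_add_of_le (show m + 1 ≤ 40 + e by omega)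
    have h5 : 40 + e - m - 1 = r := by omega
    rw [h5]
    have h6 : 40 + e ≤ 2 * r := by omega
    nlinarith

theorem stepA {n d M : ℕ} (hn : 3 ≤ n) (hd40 : 40 ≤ d) (hM : 32 * M ≤ d ^ 2)
    {H : SimpleGraph (Fin n)} (hd : MinDeg H d) {q : ℝ} (h0 : 0 ≤ q) (h1 : q ≤ 1)
    (R : SimpleGraph (Fin n)) (hR : (H ⊔ R).IsHamiltonian) :
    1 - (n : ℝ) ^ 3 * (1 - q) ^ M ≤
      EG n q (fun R' => if HC (H ⊔ (R ⊔ R')) then (1 : ℝ) else 0) := by
  have hb := bound_le hd40 hM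
  have hcard : Fintype.card (Fin n) = n := Fintype.card_fin n
  refine le_trans ?_ (union_bound (ι := Fin n × Fin n)
    (Finset.univ.filter (fun p : Fin n × Fin n => p.1 ≠ p.2))
    (fun p Q => PL ((H ⊔ R) ⊔ Q) p.1 p.2 (n - 1)) M ?_ q h0 h1 _ ?_)
  · have hc : ((Finset.univ.filter (fun p : Fin n × Fin n => p.1 ≠ p.2)).card : ℝ) ≤
        (n : ℝ) ^ 3 := by
      have h2 : (Finset.univ.filter (fun p : Fin n × Fin n => p.1 ≠ p.2)).card ≤ n * n := by
        refine (Finset.card_filter_le _ _).trans ?_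
        rw [Finset.card_univ, Fintype.card_prod, hcard]
      have h3 : n * n ≤ n ^ 3 := by nlinarith [Nat.pos_of_ne_zero (show n ≠ 0 by omega)]
      exact_mod_cast h2.trans h3
    have h4 : 0 ≤ (1 - q) ^ M := pow_nonneg (by linarith) _
    nlinarith
  · intro p hp
    have hne : p.1 ≠ p.2 := (Finset.mem_filter.1 hp).2
    obtain ⟨v, hv, hvx⟩ := En.of_ham hR (by rw [hcard]; omega) p.2
    rw [hcard] at hv hvx
    obtain ⟨t, ht, hty⟩ := hv.surj p.1
    have ht' : t + 1 < n := by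
      rcases Nat.lt_or_ge (t + 1) n with h | h
      · exact h
      · exfalso
        have : t = n - 1 := by omega
        rw [this] at hty
        exact hne (hty.symm.trans hvx)
    obtain ⟨K, hK1, hK2⟩ := stepI (le_sup_left : H ≤ H ⊔ R) hv hd ht'
    refine ⟨K, by omega, fun Q hQ => ?_⟩
    have := hK2 Q hQ
    rwa [hty, hvx] at this
  · intro Q hQ x y hxy
    have := hQ (x, y) (Finset.mem_filter.2 ⟨Finset.mem_univ _, hxy⟩)
    rw [sup_assoc] at this
    exact this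

theorem stepB {n d M : ℕ} (hd40 : 40 ≤ d) (hM : 32 * M ≤ d ^ 2)
    {H : SimpleGraph (Fin n)} (hd : MinDeg H d) {q : ℝ} (h0 : 0 ≤ q) (h1 : q ≤ 1)
    (R : SimpleGraph (Fin n)) (hn : 3 ≤ n) (hR : HC (H ⊔ R)) :
    1 - (n : ℝ) ^ 3 * (1 - q) ^ M ≤
      EG n q (fun R' => if RichI (H ⊔ (R ⊔ R')) then (1 : ℝ) else 0) := by
  have hb := bound_le hd40 hM
  have hcard : Fintype.card (Fin n) = n := Fintype.card_fin n
  have hen : ∀ x y : Fin n, x ≠ y → ∃ v : ℕ → Fin n, En (H ⊔ R) n v ∧ v 0 = x ∧ v (n - 1) = y := by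
    intro x y hxy
    have h : PL (H ⊔ R) x y (Fintype.card (Fin n) - 1) := by
      rw [hcard]
      exact hR x y hxy
    have h2 := En.of_PL h
    rwa [hcard] at h2
  refine le_trans ?_ (union_bound (ι := Fin n × Fin n × Fin n) Finset.univ
    (fun p Q => (p.1 ≠ p.2.1 → 3 ≤ (p.2.2 : ℕ) → PL ((H ⊔ R) ⊔ Q) p.1 p.2.1 p.2.2) ∧
      (p.1 = p.2.1 → ∃ b c, ((H ⊔ R) ⊔ Q).Adj p.1 b ∧ ((H ⊔ R) ⊔ Q).Adj b c ∧
        ((H ⊔ R) ⊔ Q).Adj c p.1)) M ?_ q h0 h1 _ ?_)
  · have hc : ((Finset.univ : Finset (Fin n × Fin n × Fin n)).card : ℝ) ≤ (n : ℝ) ^ 3 := by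
      have h2 : (Finset.univ : Finset (Fin n × Fin n × Fin n)).card = n ^ 3 := by
        rw [Finset.card_univ, Fintype.card_prod, Fintype.card_prod, hcard]
        ring
      rw [h2]
      push_cast
      exact le_rfl
    have h4 : 0 ≤ (1 - q) ^ M := pow_nonneg (by linarith) _
    nlinarith
  · rintro ⟨x, y, l⟩ _
    simp only
    by_cases hxy : x = y
    · -- triangles
      have hn1 : ∃ y : Fin n, x ≠ y := by
        by_contra hno
        push Not at hno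
        have h3 : (⟨0, by omega⟩ : Fin n) = ⟨1, by omega⟩ := (hno _).symm.trans (hno _)
        simp [Fin.ext_iff] at h3
      obtain ⟨z, hz⟩ := hn1
      obtain ⟨v, hv, _, _⟩ := hen x z hz
      obtain ⟨K, hK1, hK2⟩ := stepTri (le_sup_left : H ≤ H ⊔ R) hv hd x
      refine ⟨K, by omega, fun Q hQ => ⟨fun h => absurd hxy h, fun _ => hK2 Q hQ⟩⟩
    · obtain ⟨v, hv, hv0, hv1⟩ := hen x y hxy
      have hln := l.isLt
      rcases Nat.lt_or_ge (l : ℕ) (2 * (d / 4) + 1) with hl | hl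
      · -- short
        rcases Nat.lt_or_ge (l : ℕ) 3 with hl3 | hl3
        · obtain ⟨K, hK1, hK2⟩ := stepTri (le_sup_left : H ≤ H ⊔ R) hv hd x
          refine ⟨K, by omega, fun Q hQ => ⟨fun _ h => ?_, fun h => absurd h hxy⟩⟩
          omega
        · obtain ⟨K, hK1, hK2⟩ := stepShort (m := (l : ℕ) - 2) (le_sup_left : H ≤ H ⊔ R) hv hd
            (by omega) (by omega)
          refine ⟨K, ?_, fun Q hQ => ⟨fun _ _ => ?_, fun h => absurd h hxy⟩⟩
          · have := hb.2.2.2 ((l : ℕ) - 2) (by omega)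
            omega
          · have := hK2 Q hQ
            rwa [hv0, hv1, Nat.sub_add_cancel (by omega)] at this
      · rcases Nat.lt_or_ge ((l : ℕ) + 1) n with hl2 | hl2
        · -- long
          obtain ⟨K, hK1, hK2⟩ := stepLong (k := n - 1 - l) (h := d / 4)
            (le_sup_left : H ≤ H ⊔ R) hv hd (by omega) (by omega) (by omega)
          refine ⟨K, by omega, fun Q hQ => ⟨fun _ _ => ?_, fun h => absurd h hxy⟩⟩
          have := hK2 Q hQ
          have e : n - 1 - (n - 1 - (l : ℕ)) = l := by omega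
          rwa [hv0, hv1, e] at this
        · -- Hamilton paths
          obtain ⟨K, hK1, hK2⟩ := stepTri (le_sup_left : H ≤ H ⊔ R) hv hd x
          refine ⟨K, by omega, fun Q hQ => ⟨fun _ _ => ?_, fun h => absurd h hxy⟩⟩
          have e : (l : ℕ) = n - 1 := by omega
          rw [e]
          exact (hR x y hxy).mono le_sup_left
  · intro Q hQ
    rw [← sup_assoc]
    refine ⟨fun x y hxy ℓ hl hln => ?_, fun a => ?_⟩
    · exact (hQ (x, y, ⟨ℓ, hln⟩) (Finset.mem_univ _)).1 hxy hl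
    · exact (hQ (a, a, a) (Finset.mem_univ _)).2 rfl

end

end Pool.Agent.KS6_29.HP
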