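import Mathlib

/-!
# Paths built from pieces of an enumerated path
-/

set_option autoImplicit false

namespace Pool.Agent.KS6_29.HP

/-- A chain with given first and last element. -/
def Pth (R : ℕ → ℕ → Prop) (I : List ℕ) (a b : ℕ) : Prop :=
  I.IsChain R ∧ I.head? = some a ∧ I.getLast? = some b

theorem Pth.append {R : ℕ → ℕ → Prop} {I J : List ℕ} {a b c d : ℕ} (h : Pth R I a b)
    (h' : Pth R J c d) (hR : R b c) : Pth R (I ++ J) a d := by
  refine ⟨List.isChain_append.2 ⟨h.1, h'.1, ?_⟩, ?_, ?_⟩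
  · intro x hx y hy
    rw [h.2.2] at hx
    rw [h'.2.1] at hy
    simp only [Option.mem_def, Option.some.injEq] at hx hy
    subst hx; subst hy
    exact hR
  · rw [List.head?_append, h.2.1]; rfl
  · rw [List.getLast?_append, h'.2.2]; rfl

theorem Pth.reverse {R : ℕ → ℕ → Prop} (hs : ∀ a b, R a b → R b a) {I : List ℕ} {a b : ℕ}
    (h : Pth R I a b) : Pth R I.reverse b a := by
  refine ⟨?_, ?_, ?_⟩
  · rw [List.isChain_reverse]
    exact h.1.imp fun a b => hs a b
  · rw [List.head?_reverse]; exact h.2.2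
  · rw [List.getLast?_reverse]; exact h.2.1

/-- The segment `a, a + 1, ..., b`. -/
def sg (a b : ℕ) : List ℕ := List.range' a (b + 1 - a)

theorem mem_sg {a b i : ℕ} : i ∈ sg a b ↔ a ≤ i ∧ i ≤ b := by
  unfold sg
  rw [List.mem_range'_1]
  omega

theorem sg_nodup (a b : ℕ) : (sg a b).Nodup := List.nodup_range'

theorem length_sg (a b : ℕ) : (sg a b).length = b + 1 - a := by
  unfold sg
  rw [List.length_range']

theorem pth_sg {R : ℕ → ℕ → Prop} {a b : ℕ} (hab : a ≤ b)
    (hR : ∀ i, a ≤ i → i < b → R i (i + 1)) : Pth R (sg a b) a b := by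
  refine ⟨?_, ?_, ?_⟩
  · rw [List.isChain_iff_getElem]
    intro i hi
    rw [length_sg] at hi
    simp only [sg, List.getElem_range', one_mul]
    exact hR (a + i) (by omega) (by omega)
  · unfold sg
    rw [List.head?_range', if_neg (by omega)]
  · unfold sg
    rw [List.getLast?_range', if_neg (by omega)]
    congr 1
    omega

theorem pth_rsg {R : ℕ → ℕ → Prop} (hs : ∀ a b, R a b → R b a) {a b : ℕ} (hab : a ≤ b)
    (hR : ∀ i, a ≤ i → i < b → R i (i + 1)) : Pth R (sg a b).reverse b a :=
  (pth_sg hab hR).reverse hs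

theorem pth_single {R : ℕ → ℕ → Prop} (a : ℕ) : Pth R [a] a a := ⟨by simp, rfl, rfl⟩

variable {V : Type}

/-- There is a path with `ℓ` edges from `x` to `y`. -/
def PL (G : SimpleGraph V) (x y : V) (ℓ : ℕ) : Prop :=
  ∃ l : List V, l.Nodup ∧ l.IsChain G.Adj ∧ l.head? = some x ∧ l.getLast? = some y ∧
    l.length = ℓ + 1

theorem PL.mono {G G' : SimpleGraph V} (h : G ≤ G') {x y : V} {ℓ : ℕ} (hp : PL G x y ℓ) :
    PL G' x y ℓ := by
  obtain ⟨l, h1, h2, h3⟩ := hp
  exact ⟨l, h1, h2.imp fun a b hab => h hab, h3⟩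

theorem PL.symm {G : SimpleGraph V} {x y : V} {ℓ : ℕ} (hp : PL G x y ℓ) : PL G y x ℓ := by
  obtain ⟨l, h1, h2, h3, h4, h5⟩ := hp
  refine ⟨l.reverse, List.nodup_reverse.2 h1, ?_, ?_, ?_, ?_⟩
  · rw [List.isChain_reverse]
    exact h2.imp fun a b hab => hab.symm
  · rw [List.head?_reverse]; exact h4
  · rw [List.getLast?_reverse]; exact h3
  · rw [List.length_reverse]; exact h5

theorem PL.walk {G : SimpleGraph V} {x y : V} {ℓ : ℕ} (hp : PL G x y ℓ) :
    ∃ p : G.Walk x y, p.IsPath ∧ p.length = ℓ := by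
  obtain ⟨l, h1, h2, h3, h4, h5⟩ := hp
  have key : ∀ (l : List V) (x : V) (ℓ : ℕ), l.Nodup → l.IsChain G.Adj → l.head? = some x →
      l.getLast? = some y → l.length = ℓ + 1 →
      ∃ p : G.Walk x y, p.support = l ∧ p.length = ℓ := by
    intro l
    induction l with
    | nil => intro x ℓ _ _ h; simp at h
    | cons a t ih =>
      intro x ℓ h1 h2 h3 h4 h5
      simp only [List.head?_cons, Option.some.injEq] at h3
      subst h3
      cases t with
      | nil =>
        simp only [List.getLast?_singleton, Option.some.injEq] at h4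
        subst h4
        simp only [List.length_cons, List.length_nil] at h5
        refine ⟨SimpleGraph.Walk.nil, by simp, ?_⟩
        simp only [SimpleGraph.Walk.length_nil]
        omega
      | cons b s =>
        rw [List.isChain_cons_cons] at h2
        rw [List.getLast?_cons_cons] at h4
        simp only [List.length_cons] at h5
        obtain ⟨p, hp1, hp2⟩ := ih b (ℓ - 1) (List.nodup_cons.1 h1).2 h2.2 rfl h4
          (by simp only [List.length_cons]; omega)
        refine ⟨SimpleGraph.Walk.cons h2.1 p, ?_, ?_⟩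
        · rw [SimpleGraph.Walk.support_cons, hp1]
        · rw [SimpleGraph.Walk.length_cons, hp2]
          omega
  obtain ⟨p, hp1, hp2⟩ := key l x ℓ h1 h2 h3 h4 h5
  refine ⟨p, ?_, hp2⟩
  rw [SimpleGraph.Walk.isPath_def, hp1]
  exact h1

theorem PL.of_idx {G : SimpleGraph V} {n : ℕ} {v : ℕ → V}
    (hinj : ∀ i j, i < n → j < n → v i = v j → i = j) {I : List ℕ} (hI : ∀ i ∈ I, i < n)
    (hnd : I.Nodup) {a b ℓ : ℕ} (hp : Pth (fun i j => G.Adj (v i) (v j)) I a b)
    (hl : I.length = ℓ + 1) : PL G (v a) (v b) ℓ := by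
  refine ⟨I.map v, ?_, ?_, ?_, ?_, ?_⟩
  · exact List.Nodup.map_on (fun x hx y hy h => hinj x y (hI x hx) (hI y hy) h) hnd
  · rw [List.isChain_map]
    exact hp.1
  · rw [List.head?_map, hp.2.1]; rfl
  · rw [List.getLast?_map, hp.2.2]; rfl
  · rw [List.length_map]; exact hl

/-- `v 0, ..., v (n - 1)` is a Hamilton path of `G`. -/
structure En (G : SimpleGraph V) (n : ℕ) (v : ℕ → V) : Prop where
  inj : ∀ i j, i < n → j < n → v i = v j → i = j
  surj : ∀ a, ∃ i, i < n ∧ v i = a
  adj : ∀ i, i + 1 < n → G.Adj (v i) (v (i + 1))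

theorem En.of_PL [Fintype V] {G : SimpleGraph V} {x y : V}
    (hp : PL G x y (Fintype.card V - 1)) :
    ∃ v : ℕ → V, En G (Fintype.card V) v ∧ v 0 = x ∧ v (Fintype.card V - 1) = y := by
  classical
  obtain ⟨l, h1, h2, h3, h4, h5⟩ := hp
  have hc : 0 < Fintype.card V := Fintype.card_pos_iff.2 ⟨x⟩
  have hlen : l.length = Fintype.card V := by omega
  refine ⟨fun i => l.getD i x, ⟨?_, ?_, ?_⟩, ?_, ?_⟩
  · intro i j hi hj h
    rw [List.getD_eq_getElem _ _ (by omega), List.getD_eq_getElem _ _ (by omega)] at h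
    exact (List.Nodup.getElem_inj_iff h1).1 h
  · intro a
    have hall : l.toFinset = Finset.univ := by
      apply Finset.eq_univ_of_card
      rw [List.toFinset_card_of_nodup h1, hlen]
    have ha : a ∈ l := by
      rw [← List.mem_toFinset, hall]
      exact Finset.mem_univ a
    obtain ⟨i, hi, hia⟩ := List.getElem_of_mem ha
    refine ⟨i, by omega, ?_⟩
    rw [List.getD_eq_getElem _ _ hi]
    exact hia
  · intro i hi
    rw [List.getD_eq_getElem _ _ (by omega), List.getD_eq_getElem _ _ (by omega)]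
    exact List.isChain_iff_getElem.1 h2 i (by omega)
  · cases l with
    | nil => simp at h3
    | cons a t =>
      simp only [List.head?_cons, Option.some.injEq] at h3
      simp [h3]
  · beta_reduce
    rw [List.getD_eq_getElem _ _ (by omega)]
    rw [List.getLast?_eq_getElem?] at h4
    rw [List.getElem?_eq_getElem (by omega)] at h4
    simp only [Option.some.injEq] at h4
    rw [← h4]
    congr 1
    omega

/-- A Hamiltonian graph has a Hamilton path with a given end. -/
theorem En.of_ham [Fintype V] [DecidableEq V] {G : SimpleGraph V} (hG : G.IsHamiltonian)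
    (hn : 2 ≤ Fintype.card V) (x : V) :
    ∃ v : ℕ → V, En G (Fintype.card V) v ∧ v (Fintype.card V - 1) = x := by
  have : Nontrivial V := Fintype.one_lt_card_iff_nontrivial.1 (by omega)
  obtain ⟨p, hp⟩ := hG.exists_isHamiltonianCycle x
  have hlen := hp.length_eq
  refine ⟨fun i => p.getVert (i + 1), ⟨?_, ?_, ?_⟩, ?_⟩
  · intro i j hi hj h
    have := hp.isCycle.getVert_injOn (x₁ := i + 1) (x₂ := j + 1) ⟨by omega, by omega⟩
      ⟨by omega, by omega⟩ h
    omega
  · intro a
    obtain ⟨m, hm, hml⟩ := SimpleGraph.Walk.mem_support_iff_exists_getVert.1 (hp.mem_support a)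
    rcases Nat.eq_zero_or_pos m with h0 | h0
    · refine ⟨Fintype.card V - 1, by omega, ?_⟩
      rw [Nat.sub_add_cancel (by omega), ← hlen, SimpleGraph.Walk.getVert_length, ← hm, h0,
        SimpleGraph.Walk.getVert_zero]
    · refine ⟨m - 1, by omega, ?_⟩
      rw [Nat.sub_add_cancel (by omega)]
      exact hm
  · intro i hi
    exact p.adj_getVert_succ (by omega)
  · beta_reduce
    rw [Nat.sub_add_cancel (by omega), ← hlen, SimpleGraph.Walk.getVert_length]

end Pool.Agent.KS6_29.HP
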